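import Pool.Agent.CompToeplitz.KernelCond

/-!
# When is `C_φ* C_φ` uniformly asymptotically Toeplitz?

For every analytic self-map `φ` of the unit disc we give a necessary and sufficient condition:
`M_z*ⁿ C_φ* C_φ M_zⁿ` converges in operator norm if and only if the part of the pull-back measure
`m φ⁻¹` carried by the open disc is a vanishing Carleson measure; equivalently, if and only if
`∫_{|φ| < 1} (1 - |a|²) / |1 - ā φ|² dm → 0` as `|a| → 1`.
-/

open Complex Metric Set

namespace Pool.Agent.Results.MP_eb20fa_an.UATCriterion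

open Pool.Agent.CompToeplitz

theorem result (φ : ℂ → ℂ) (hφ : DifferentiableOn ℂ φ (ball 0 1))
    (hmap : MapsTo φ (ball 0 1) (ball 0 1)) :
    (∃ C : OpH2, IsCompOp φ C) ∧
    ∀ C : OpH2, IsCompOp φ C →
      [IsUAT (gram C), VanishingCarleson φ, VanishingKernel φ].TFAE := by
  refine ⟨exists_compOp hφ hmap, fun C hC => ?_⟩
  tfae_have 1 → 3 := kernel_of_isUAT hφ hmap hC
  tfae_have 3 → 2 := vanishing_of_kernel hφ hmap
  tfae_have 2 → 1 := isUAT_of_vanishing hφ hmap hC
  tfae_finish

end Pool.Agent.Results.MP_eb20fa_an.UATCriterion
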